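import Pool.Agent.H93.RG.Mat

/-!
# FG for blocks of size `r`: following the canonical process (port of H3/Ac/Fol)
-/

set_option autoImplicit false
set_option linter.unusedSectionVars false

namespace Pool.Agent.H14.RG

open Finset
open Pool.Agent.H93.RG

variable {V : Type} [Fintype V] [DecidableEq V]

theorem fst_spec {r : ℕ} {F : List (Finset (Finset V))} {π t : Finset (Finset V)}
    (h : fst r F π = some t) : t ∈ F ∧ IsM r (t ∪ π) := by
  classical
  unfold fst at h
  refine ⟨List.mem_of_find?_eq_some h, ?_⟩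
  have h1 := List.find?_some h
  exact of_decide_eq_true h1

/-- one step of the process inside a matching -/
theorem follow_step {r : ℕ} (hr : 1 ≤ r) (F : List (Finset (Finset V))) (w k : ℕ)
    (hF : ∀ t ∈ F, IsM r t ∧ t.card ≤ w)
    {ρ M π : Finset (Finset V)} (hπ : Relation.ReflTransGen (Stp r F) ρ π) (hρ : ρ ⊆ π)
    (hMπ : IsM r (M ∪ π)) (hc : (M ∪ π).card ≤ M.card + k)
    (hroom : r * M.card + r * k + r * (r * w) ≤ Fintype.card V)
    (hfin : ¬ (fst r F π = none ∨ ∃ t, fst r F π = some t ∧ t ⊆ π)) :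
    ∃ π', Relation.ReflTransGen (Stp r F) ρ π' ∧ ρ ⊆ π' ∧ IsM r (M ∪ π') ∧ π.card < π'.card := by
  classical
  push Not at hfin
  obtain ⟨hne, hno⟩ := hfin
  obtain ⟨t, ht⟩ := Option.ne_none_iff_exists'.mp hne
  have hnsub := hno t ht
  obtain ⟨htF, htπ⟩ := fst_spec ht
  obtain ⟨htM, htw⟩ := hF t htF
  have hct := card_cov htM
  have h0 : r * (M ∪ π).card + r * (cov t).card ≤ Fintype.card V := by
    rw [hct]
    have h1 : r * (M ∪ π).card ≤ r * (M.card + k) := Nat.mul_le_mul_left r hc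
    have h2 : r * (r * t.card) ≤ r * (r * w) := Nat.mul_le_mul_left r (Nat.mul_le_mul_left r htw)
    rw [Nat.mul_add] at h1
    omega
  obtain ⟨M'', hM'', hsub, hcov, -, -⟩ := cover hr (cov t) hMπ h0
  set π' := π ∪ M''.filter (fun e => ∃ v ∈ e, v ∈ cov t) with hπ'
  have hsub' : M ∪ π' ⊆ M'' := by
    intro e he
    rw [mem_union, hπ', mem_union, mem_filter] at he
    rcases he with he | he | he
    · exact hsub (mem_union_left _ he)
    · exact hsub (mem_union_right _ he)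
    · exact he.1
  have hπM' : IsM r (M ∪ π') := isM_sub hM'' hsub'
  have hcovπ : cov t ⊆ cov π' := by
    intro v hv
    have h1 := hcov hv
    rw [mem_cov] at h1 ⊢
    obtain ⟨e, he, hve⟩ := h1
    refine ⟨e, ?_, hve⟩
    rw [hπ', mem_union, mem_filter]
    exact Or.inr ⟨he, v, hve, hv⟩
  have hππ' : π ⊆ π' := subset_union_left
  have hstp : Stp r F π π' := by
    refine ⟨t, ht, hnsub, isM_sub hπM' subset_union_right, hππ', hcovπ, ?_⟩
    intro e he hne'
    rw [hπ', mem_union, mem_filter] at he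
    exact (he.resolve_left hne').2
  have hss : π ⊂ π' := by
    rw [ssubset_iff_subset_ne]
    refine ⟨hππ', fun heq => ?_⟩
    rw [not_subset] at hnsub
    obtain ⟨e, het, heπ⟩ := hnsub
    have hec : e.card = r := htM.1 e het
    obtain ⟨a, hae⟩ : e.Nonempty := by
      rw [← Finset.card_pos]
      omega
    have hva : a ∈ cov t := mem_cov.2 ⟨e, het, hae⟩
    have h1 := hcovπ hva
    rw [← heq, mem_cov] at h1
    obtain ⟨f, hf, haf⟩ := h1
    have h2 := htπ.2 e (mem_union_left _ het) f (mem_union_right _ hf) a hae haf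
    exact heπ (h2 ▸ hf)
  exact ⟨π', hπ.tail hstp, hρ.trans hππ', hπM', card_lt_card hss⟩

theorem follow_aux {r : ℕ} (hr : 1 ≤ r) (F : List (Finset (Finset V))) (w k : ℕ)
    (hF : ∀ t ∈ F, IsM r t ∧ t.card ≤ w)
    {ρ M : Finset (Finset V)} (hM : IsM r M) (hρM : ρ ⊆ M) (hgood : ¬ Bad r F k ρ)
    (hroom : r * M.card + r * k + r * (r * w) ≤ Fintype.card V) (n : ℕ) :
    ∀ π : Finset (Finset V), Relation.ReflTransGen (Stp r F) ρ π → ρ ⊆ π → IsM r (M ∪ π) →
      ρ.card + k - π.card ≤ n →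
    ∃ M' π, IsM r M' ∧ M ⊆ M' ∧ ρ ⊆ π ∧ π ⊆ M' ∧ M'.card ≤ M.card + k ∧ π.card ≤ ρ.card + k ∧
      (fst r F π = none ∨ ∃ t, fst r F π = some t ∧ t ⊆ π) := by
  classical
  have hb : ∀ π, Relation.ReflTransGen (Stp r F) ρ π → π.card ≤ ρ.card + k := by
    intro π hπ
    by_contra hcon
    exact hgood ⟨π, hπ, by omega⟩
  have hMc : ∀ π, ρ ⊆ π → π.card ≤ ρ.card + k → (M ∪ π).card ≤ M.card + k := by
    intro π hρ hc
    have h1 : M ∪ π ⊆ M ∪ (π \ ρ) := by
      intro e he
      rw [mem_union] at he ⊢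
      rcases he with he | he
      · exact Or.inl he
      · by_cases h : e ∈ ρ
        · exact Or.inl (hρM h)
        · exact Or.inr (mem_sdiff.mpr ⟨he, h⟩)
    have h2 := card_le_card h1
    have h3 := card_union_le M (π \ ρ)
    have h4 := card_sdiff_add_card_eq_card hρ
    omega
  induction n with
  | zero =>
    intro π hπ hρ hMπ hn
    have h1 := hb π hπ
    by_cases hfin : fst r F π = none ∨ ∃ t, fst r F π = some t ∧ t ⊆ π
    · exact ⟨M ∪ π, π, hMπ, subset_union_left, hρ, subset_union_right, hMc π hρ h1, h1, hfin⟩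
    · exfalso
      obtain ⟨π', h2, h3, h4, h5⟩ := follow_step hr F w k hF hπ hρ hMπ (hMc π hρ h1) hroom hfin
      have h6 := hb π' h2
      omega
  | succ n ih =>
    intro π hπ hρ hMπ hn
    have h1 := hb π hπ
    by_cases hfin : fst r F π = none ∨ ∃ t, fst r F π = some t ∧ t ⊆ π
    · exact ⟨M ∪ π, π, hMπ, subset_union_left, hρ, subset_union_right, hMc π hρ h1, h1, hfin⟩
    · obtain ⟨π', h2, h3, h4, h5⟩ := follow_step hr F w k hF hπ hρ hMπ (hMc π hρ h1) hroom hfin
      have h6 := hb π' h2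
      exact ih π' h2 h3 h4 (by omega)

theorem follow {r : ℕ} (hr : 1 ≤ r) (F : List (Finset (Finset V))) (w k : ℕ)
    (hF : ∀ t ∈ F, IsM r t ∧ t.card ≤ w)
    {ρ M : Finset (Finset V)} (hM : IsM r M) (hρM : ρ ⊆ M) (hgood : ¬ Bad r F k ρ)
    (hroom : r * M.card + r * k + r * (r * w) ≤ Fintype.card V) :
    ∃ M' π, IsM r M' ∧ M ⊆ M' ∧ ρ ⊆ π ∧ π ⊆ M' ∧ M'.card ≤ M.card + k ∧ π.card ≤ ρ.card + k ∧
      (fst r F π = none ∨ ∃ t, fst r F π = some t ∧ t ⊆ π) := by
  refine follow_aux hr F w k hF hM hρM hgood hroom (ρ.card + k) ρ Relation.ReflTransGen.refl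
    (Subset.refl ρ) ?_ (by omega)
  rw [union_eq_left.mpr hρM]
  exact hM

end Pool.Agent.H14.RG
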